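import Pool.Agent.Helper40.W4.Spec

/-! Part CL of the blueprint W4 (MP_2fcb4d_al): a chain of subrings that solves all tasks. -/

set_option autoImplicit false
set_option linter.style.haveILetI false

namespace Pool.Agent.Helper92.W4

open Pool.Agent.Helper40.W4

theorem cl_thm : S_CL := by
  classical
  intro A _ P T coef Sol hfin hmono hcount hstep S₀ hS₀
  -- enumeration of the tasks of `S`
  have henc : ∀ S : {S : Subring A // P S}, ∃ f : ℕ → Option {t // coef t ⊆ (S.1 : Set A)},
      Function.Surjective f := by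
    intro S
    haveI := hcount S.1 S.2
    exact exists_surjective_nat _
  choose enc henc using henc
  -- solving one task
  have hnxt : ∀ (S : {S : Subring A // P S}) (t : Option T), ∃ S' : {S : Subring A // P S},
      S.1 ≤ S'.1 ∧ ∀ u, t = some u → coef u ⊆ (S.1 : Set A) → Sol u S'.1 := by
    intro S t
    by_cases h : ∃ u, t = some u ∧ coef u ⊆ (S.1 : Set A)
    · obtain ⟨u, hu, hcu⟩ := h
      obtain ⟨S', hle, hP, hs⟩ := hstep S.1 u S.2 hcu
      refine ⟨⟨S', hP⟩, hle, fun v hv _ => ?_⟩
      rw [hu] at hv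
      cases hv
      exact hs
    · refine ⟨S, le_rfl, fun u hu hcu => ?_⟩
      exact absurd ⟨u, hu, hcu⟩ h
  choose nxt hnxt_le hnxt_sol using hnxt
  let tsk : {S : Subring A // P S} → ℕ → Option T := fun S j => (enc S j).map Subtype.val
  let H : ℕ → ℕ → {S : Subring A // P S} := fun n =>
    Nat.rec (motive := fun _ => ℕ → {S : Subring A // P S}) (fun _ => ⟨S₀, hS₀⟩)
      (fun n Hn k => if k ≤ n then Hn k else nxt (Hn n) (tsk (Hn n.unpair.1) n.unpair.2)) n
  have H0 : ∀ k, H 0 k = ⟨S₀, hS₀⟩ := fun _ => rfl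
  have Hs : ∀ n k, H (n + 1) k =
      if k ≤ n then H n k else nxt (H n n) (tsk (H n n.unpair.1) n.unpair.2) := fun _ _ => rfl
  have hH : ∀ n k, k ≤ n → H n k = H k k := by
    intro n
    induction n with
    | zero => intro k hk; rw [Nat.le_zero.1 hk]
    | succ n ih =>
      intro k hk
      rcases Nat.lt_or_ge n k with h | h
      · have : k = n + 1 := by omega
        rw [this]
      · rw [Hs, if_pos h, ih k h]
  have hsucc : ∀ n, H (n + 1) (n + 1) =
      nxt (H n n) (tsk (H n.unpair.1 n.unpair.1) n.unpair.2) := by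
    intro n
    rw [Hs, if_neg (by omega), hH n n.unpair.1 (Nat.unpair_left_le n)]
  have hmonoS : Monotone fun n => (H n n).1 := by
    refine monotone_nat_of_le_succ fun n => ?_
    show (H n n).1 ≤ (H (n + 1) (n + 1)).1
    rw [hsucc]
    exact hnxt_le _ _
  refine ⟨fun n => (H n n).1, by show (H 0 0).1 = S₀; rw [H0], hmonoS, fun n => (H n n).2, ?_⟩
  intro t ht
  -- all coefficients lie in one member of the chain
  have hm : ∃ m, coef t ⊆ ((H m m).1 : Set A) := by
    have := (hfin t)
    choose! g hg using ht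
    obtain ⟨B, hB⟩ := (this.image g).bddAbove
    refine ⟨B, fun a ha => ?_⟩
    exact hmonoS (hB ⟨a, ha, rfl⟩) (hg a ha)
  obtain ⟨m, hm⟩ := hm
  obtain ⟨j, hj⟩ := henc (H m m) (some ⟨t, hm⟩)
  refine ⟨Nat.pair m j + 1, ?_⟩
  show Sol t (H (Nat.pair m j + 1) (Nat.pair m j + 1)).1
  rw [hsucc]
  refine hnxt_sol _ _ t ?_ ?_
  · rw [Nat.unpair_pair]
    show (enc (H m m) j).map Subtype.val = some t
    rw [hj]; rfl
  · exact hm.trans (hmonoS (Nat.left_le_pair m j))

end Pool.Agent.Helper92.W4
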