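import Pool.Agent.Helper40.W4.Spec

/-! Part DISC of the blueprint W4 (MP_2fcb4d_al): parity of the dimension and discriminant. -/

set_option autoImplicit false

namespace Pool.Agent.Helper92.W4

open Pool.Agent.Helper40.W4

section

variable {K : Type} [Field K]

lemma two_mem_fI : (2 : W K) ∈ fI K := by
  have h : (1 : W K) - br (-1) ∈ fI K := Ideal.subset_span ⟨-1, rfl⟩
  rw [br_neg, br_one] at h
  have e : (1 : W K) - -1 = 2 := by ring
  rwa [e] at h

/-- The dimension modulo two. -/
lemma exists_dim : ∃ f : W K →+* ZMod 2, ∀ a : Kˣ, f (br a) = 1 := by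
  refine ⟨Wlift (1 : Kˣ →* ZMod 2) (fun _ => rfl) ?_ (fun _ _ _ _ => rfl),
    fun a => Wlift_br _ _ _ _ a⟩
  have : (1 : ZMod 2) = -1 := by decide
  exact this

lemma sub_card_mem {n : ℕ} (a : Fin n → Kˣ) : cl a - (n : W K) ∈ fI K := by
  have h : cl a - (n : W K) = ∑ i, (-(1 - br (a i))) := by
    unfold cl
    simp [Finset.sum_sub_distrib]
  rw [h]
  refine Ideal.sum_mem _ fun i _ => ?_
  exact (fI K).neg_mem (Ideal.subset_span ⟨a i, rfl⟩)

lemma sq_le_ker {R : Type} [CommRing R] (f : W K →+* R)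
    (h : ∀ a b : Kˣ, (1 - f (br a)) * (1 - f (br b)) = 0) : (fI K) ^ 2 ≤ RingHom.ker f := by
  rw [pow_two, fI, Ideal.span_mul_span', Ideal.span_le]
  rintro _ ⟨_, ⟨a, rfl⟩, _, ⟨b, rfl⟩, rfl⟩
  simp only [SetLike.mem_coe, RingHom.mem_ker, map_mul, map_sub, map_one]
  exact h a b

lemma exists_addchar {A : Type} [AddCommGroup A] (h2 : ∀ x : A, 2 • x = 0) (s : A) (hs : s ≠ 0) :
    ∃ f : A →+ ZMod 2, f s = 1 := by
  let _ : Module (ZMod 2) A := AddCommGroup.zmodModule h2
  by_contra hcon
  push Not at hcon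
  apply hs
  refine (Module.forall_dual_apply_eq_zero_iff (ZMod 2) s).1 fun φ => ?_
  have h1 := hcon φ.toAddMonoidHom
  have h3 : ∀ x : ZMod 2, x ≠ 1 → x = 0 := by decide
  exact h3 _ h1

/-- A character of `Kˣ / (Kˣ)²` not trivial on `s`. -/
lemma exists_char (s : Kˣ) (hs : ¬ IsSquare s) :
    ∃ f : Kˣ →* Multiplicative (ZMod 2), f s = Multiplicative.ofAdd 1 := by
  let Sq : Subgroup Kˣ := (powMonoidHom 2 : Kˣ →* Kˣ).range
  have h2 : ∀ x : Additive (Kˣ ⧸ Sq), 2 • x = 0 := by
    intro x
    obtain ⟨y, hy⟩ := QuotientGroup.mk_surjective (s := Sq) (Additive.toMul x)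
    have hx : x = Additive.ofMul (y : Kˣ ⧸ Sq) := by rw [hy]; rfl
    rw [hx, ← ofMul_pow, ← ofMul_one, ← QuotientGroup.mk_pow]
    congr 1
    exact (QuotientGroup.eq_one_iff _).2 ⟨y, rfl⟩
  have hs' : Additive.ofMul (s : Kˣ ⧸ Sq) ≠ 0 := by
    intro h
    rw [← ofMul_one] at h
    have h' : (s : Kˣ ⧸ Sq) = 1 := Additive.ofMul.injective h
    obtain ⟨y, hy⟩ := (QuotientGroup.eq_one_iff _).1 h'
    apply hs
    refine ⟨y, ?_⟩
    rw [← hy, ← pow_two]; rfl
  obtain ⟨f, hf⟩ := exists_addchar (A := Additive (Kˣ ⧸ Sq)) h2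
    (Additive.ofMul (s : Kˣ ⧸ Sq)) hs'
  refine ⟨(AddMonoidHom.toMultiplicativeRight f : (Kˣ ⧸ Sq) →* Multiplicative (ZMod 2)).comp
    (QuotientGroup.mk' Sq), ?_⟩
  show Multiplicative.ofAdd (f (Additive.ofMul (s : Kˣ ⧸ Sq))) = _
  rw [hf]

/-- First case: `f (-1) = 0`; the ring `F₂[C₂]`, realised as `2 × 2` pairs. -/
lemma case_zero (f : Kˣ →* Multiplicative (ZMod 2)) (h1 : f (-1) = 1) (s : Kˣ)
    (hs : 1 - br s ∈ (fI K) ^ 2) : f s = 1 := by
  let R := MonoidAlgebra (ZMod 2) (Multiplicative (ZMod 2))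
  let g : Kˣ →* R := (MonoidAlgebra.of (ZMod 2) (Multiplicative (ZMod 2))).comp f
  have hdec : ∀ x : Multiplicative (ZMod 2), x = 1 ∨ x = Multiplicative.ofAdd 1 := by decide
  have h2 : ∀ x : R, x + x = 0 := by
    intro x
    have : (2 : ZMod 2) = 0 := by decide
    rw [← two_smul (ZMod 2) x, this, zero_smul]
  have hsq : ∀ x : Multiplicative (ZMod 2), x * x = 1 := by decide
  have hgg : ∀ a, g a * g a = 1 := by
    intro a
    rw [← map_mul]
    show MonoidAlgebra.of (ZMod 2) _ (f (a * a)) = 1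
    rw [map_mul, hsq, map_one]
  have hneg : ∀ x : R, -x = x := fun x => neg_eq_of_add_eq_zero_left (h2 x)
  let χ : W K →+* R := Wlift g hgg
    (by
      rw [hneg]
      show MonoidAlgebra.of (ZMod 2) _ (f (-1)) = 1
      rw [h1, map_one])
    (by
      intro a b c _
      have key : ∀ x y z : Multiplicative (ZMod 2),
          MonoidAlgebra.of (ZMod 2) (Multiplicative (ZMod 2)) x +
            MonoidAlgebra.of (ZMod 2) (Multiplicative (ZMod 2)) y =
          MonoidAlgebra.of (ZMod 2) (Multiplicative (ZMod 2)) z +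
            MonoidAlgebra.of (ZMod 2) (Multiplicative (ZMod 2)) (x * y * z) := by
        intro x y z
        rcases hdec x with rfl | rfl <;> rcases hdec y with rfl | rfl <;>
          rcases hdec z with rfl | rfl <;>
          simp only [one_mul, mul_one, hsq, h2] <;>
          exact add_comm _ _
      have := key (f a) (f b) (f c)
      rw [← map_mul, ← map_mul] at this
      exact this)
  have hχ : ∀ a, χ (br a) = g a := fun a => Wlift_br _ _ _ _ a
  have hle : (fI K) ^ 2 ≤ RingHom.ker χ := by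
    refine sq_le_ker χ fun a b => ?_
    rw [hχ, hχ]
    have hg : ∀ a, g a = 1 ∨ g a = MonoidAlgebra.of (ZMod 2) _ (Multiplicative.ofAdd 1) := by
      intro a
      rcases hdec (f a) with h | h
      · left; show MonoidAlgebra.of (ZMod 2) _ (f a) = 1; rw [h, map_one]
      · right; show MonoidAlgebra.of (ZMod 2) _ (f a) = _; rw [h]
    rcases hg a with h | h
    · rw [h, sub_self, zero_mul]
    rcases hg b with h' | h'
    · rw [h', sub_self, mul_zero]
    rw [h, h']
    set e : R := MonoidAlgebra.of (ZMod 2) _ (Multiplicative.ofAdd 1) with he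
    have hee : e * e = 1 := by rw [he, ← map_mul, hsq, map_one]
    have : (1 - e) * (1 - e) = (1 + e * e) - (e + e) := by ring
    rw [this, hee, h2, h2, sub_self]
  have h0 := hle hs
  rw [RingHom.mem_ker, map_sub, map_one, hχ, sub_eq_zero] at h0
  have h3 : MonoidAlgebra.of (ZMod 2) (Multiplicative (ZMod 2)) 1 =
      MonoidAlgebra.of (ZMod 2) _ (f s) := by rw [map_one]; exact h0
  exact (MonoidAlgebra.of_injective h3).symm

/-- Second case: `f (-1) = 1`; the ring `ℤ / 4`. -/
lemma case_one (f : Kˣ →* Multiplicative (ZMod 2)) (h1 : f (-1) = Multiplicative.ofAdd 1) (s : Kˣ)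
    (hs : 1 - br s ∈ (fI K) ^ 2) : f s = 1 := by
  let e : Multiplicative (ZMod 2) →* ZMod 4 :=
    { toFun := fun x => if x = 1 then 1 else -1
      map_one' := by simp
      map_mul' := by decide }
  let g : Kˣ →* ZMod 4 := e.comp f
  have he1 : e (Multiplicative.ofAdd 1) = -1 := by decide
  let χ : W K →+* ZMod 4 := Wlift g
    (by
      intro a
      show e (f a) * e (f a) = 1
      have : ∀ x : Multiplicative (ZMod 2), e x * e x = 1 := by decide
      exact this _)
    (by show e (f (-1)) = -1; rw [h1, he1])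
    (by
      intro a b c _
      have key : ∀ x y z : Multiplicative (ZMod 2), e x + e y = e z + e (x * y * z) := by decide
      have := key (f a) (f b) (f c)
      rw [← map_mul, ← map_mul] at this
      exact this)
  have hχ : ∀ a, χ (br a) = g a := fun a => Wlift_br _ _ _ _ a
  have hle : (fI K) ^ 2 ≤ RingHom.ker χ := by
    refine sq_le_ker χ fun a b => ?_
    rw [hχ, hχ]
    have key : ∀ x y : Multiplicative (ZMod 2), (1 - e x) * (1 - e y) = 0 := by decide
    exact key _ _
  have h0 := hle hs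
  rw [RingHom.mem_ker, map_sub, map_one, hχ] at h0
  have key : ∀ x : Multiplicative (ZMod 2), 1 - e x = 0 → x = 1 := by decide
  exact key _ h0

theorem disc_thm : S_DISC := by
  intro K _ _
  refine ⟨fun n a => ⟨fun h => ?_, fun h => ?_⟩, fun s hs => ?_⟩
  · obtain ⟨f, hf⟩ := exists_dim (K := K)
    have hle : fI K ≤ RingHom.ker f := by
      refine Ideal.span_le.2 ?_
      rintro _ ⟨b, rfl⟩
      simp [RingHom.mem_ker, hf]
    have h0 : f (cl a) = 0 := hle h
    unfold cl at h0
    simp only [map_sum, hf, Finset.sum_const, Finset.card_univ, Fintype.card_fin, nsmul_eq_mul,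
      mul_one] at h0
    exact (ZMod.natCast_eq_zero_iff_even).1 h0
  · obtain ⟨m, rfl⟩ := h
    have h1 := sub_card_mem a
    have h2 : (((m + m : ℕ)) : W K) ∈ fI K := by
      have : ((m + m : ℕ) : W K) = m * 2 := by push_cast; ring
      rw [this]
      exact (fI K).mul_mem_left _ two_mem_fI
    have := (fI K).add_mem h1 h2
    simpa using this
  · by_contra hns
    obtain ⟨f, hf⟩ := exists_char s hns
    have hdec : ∀ x : Multiplicative (ZMod 2), x = 1 ∨ x = Multiplicative.ofAdd 1 := by decide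
    have hf1 : f s = 1 := by
      rcases hdec (f (-1)) with h | h
      · exact case_zero f h s hs
      · exact case_one f h s hs
    rw [hf1] at hf
    exact absurd hf (by decide)

end

end Pool.Agent.Helper92.W4
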