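import Pool.Agent.Helper40.W4.Spec

/-! Part LG of the blueprint W4 (MP_2fcb4d_al): the field with the local-global principle. -/

set_option autoImplicit false
set_option linter.style.haveILetI false

namespace Pool.Agent.Helper92.W4

open Pool.Agent.Helper40.W4 Polynomial Module

section

/-- The coefficients of `f` lie in `S`. -/
def CoefIn {A : Type} [CommRing A] (S : Subring A) (f : A[X]) : Prop := ∀ k, f.coeff k ∈ S

lemma CoefIn.mono {A : Type} [CommRing A] {S S' : Subring A} (h : S ≤ S') {f : A[X]}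
    (hf : CoefIn S f) : CoefIn S' f := fun k => h (hf k)

lemma CoefIn.exists_lift {A : Type} [CommRing A] {S : Subring A} {f : A[X]}
    (hf : CoefIn S f) : ∃ g : S[X], g.map S.subtype = f := by
  have h : f ∈ Polynomial.lifts S.subtype := by
    rw [Polynomial.lifts_iff_coeff_lifts]
    intro k
    exact ⟨⟨_, hf k⟩, rfl⟩
  exact (Polynomial.mem_lifts f).1 h

lemma coefIn_map {A B : Type} [CommRing A] [CommRing B] (g : B →+* A) (S : Subring A)
    (h : ∀ b, g b ∈ S) (f : B[X]) : CoefIn S (f.map g) := by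
  intro k
  rw [coeff_map]
  exact h _

/-- The task `(n, p, c)` is solved over `S`. -/
def SolT {M₁ M₂ : Type} [Field M₁] [Field M₂]
    (t : (n : ℕ) × ((M₁ × M₂)[X] × (Fin n → (M₁ × M₂)[X]))) (S : Subring (M₁ × M₂)) : Prop :=
  (∃ g h : (M₁ × M₂)[X], CoefIn S g ∧ CoefIn S h ∧ g.Monic ∧ h.Monic ∧ g * h = t.2.1 ∧
    0 < g.natDegree ∧ 0 < h.natDegree) ∨
  (∃ i, ∃ h : (M₁ × M₂)[X], CoefIn S h ∧ t.2.2 i = t.2.1 * h) ∨
  ¬ LocIso (t.2.1.map (RingHom.fst M₁ M₂)) (fun i => (t.2.2 i).map (RingHom.fst M₁ M₂)) ∨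
  ¬ LocIso (t.2.1.map (RingHom.snd M₁ M₂)) (fun i => (t.2.2 i).map (RingHom.snd M₁ M₂)) ∨
  ¬ t.2.1.Monic ∨ t.1 < 3 ∨ t.2.1 = 1 ∨
  ∃ (y v : Fin t.1 → (M₁ × M₂)[X]) (h u : (M₁ × M₂)[X]), (∀ i, CoefIn S (y i)) ∧
    (∀ i, CoefIn S (v i)) ∧ CoefIn S h ∧ CoefIn S u ∧
    ∑ i, t.2.2 i * y i ^ 2 = t.2.1 * h ∧ u * t.2.1 + ∑ i, v i * y i = 1

lemma SolT.mono {M₁ M₂ : Type} [Field M₁] [Field M₂]
    (t : (n : ℕ) × ((M₁ × M₂)[X] × (Fin n → (M₁ × M₂)[X]))) (S S' : Subring (M₁ × M₂))
    (h : S ≤ S') (hs : SolT t S) : SolT t S' := by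
  rcases hs with ⟨g, k, hg, hk, h1⟩ | ⟨i, k, hk, h1⟩ | h1 | h1 | h1 | h1 | h1 |
    ⟨y, v, k, u, hy, hv, hk, hu, h1⟩
  · exact Or.inl ⟨g, k, hg.mono h, hk.mono h, h1⟩
  · exact Or.inr (Or.inl ⟨i, k, hk.mono h, h1⟩)
  · exact Or.inr (Or.inr (Or.inl h1))
  · exact Or.inr (Or.inr (Or.inr (Or.inl h1)))
  · exact Or.inr (Or.inr (Or.inr (Or.inr (Or.inl h1))))
  · exact Or.inr (Or.inr (Or.inr (Or.inr (Or.inr (Or.inl h1)))))
  · exact Or.inr (Or.inr (Or.inr (Or.inr (Or.inr (Or.inr (Or.inl h1))))))
  · exact Or.inr (Or.inr (Or.inr (Or.inr (Or.inr (Or.inr (Or.inr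
      ⟨y, v, k, u, fun i => (hy i).mono h, fun i => (hv i).mono h, hk.mono h, hu.mono h, h1⟩))))))

lemma isField_range {A E : Type} [CommRing A] [Nontrivial A] [Field E] (J : E →+* A) :
    IsField J.range := by
  have e : E ≃+* J.range := RingEquiv.ofBijective J.rangeRestrict
    ⟨(RingHom.injective J).codRestrict _, J.rangeRestrict_surjective⟩
  exact e.symm.toMulEquiv.isField (Field.toIsField E)

variable {M₁ M₂ : Type} [Field M₁] [Field M₂] [CharZero M₁] [CharZero M₂]

/-- One step. -/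
lemma step_field (hG : S_LGSTEP) (hM₁ : ¬ Countable M₁) (hM₂ : ¬ Countable M₂) (E : Type) [Field E]
    [Countable E] (J : E →+* M₁ × M₂) (p : E[X]) (n : ℕ) (c : Fin n → E[X]) :
    ∃ S' : Subring (M₁ × M₂), J.range ≤ S' ∧ (IsField S' ∧ Countable S') ∧
      SolT ⟨n, (p.map J, fun i => (c i).map J)⟩ S' := by
  classical
  have hJinj : Function.Injective J := J.injective
  have hin0 : ∀ f : E[X], CoefIn J.range (f.map J) := coefIn_map J J.range fun b => ⟨b, rfl⟩
  by_cases hmon : p.Monic
  swap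
  · refine ⟨J.range, le_rfl, ⟨isField_range J, ?_⟩, ?_⟩
    · exact Set.countable_range J
    · refine Or.inr (Or.inr (Or.inr (Or.inr (Or.inl fun h => hmon ?_))))
      exact Polynomial.monic_of_injective hJinj h
  by_cases hirr : Irreducible p
  swap
  · refine ⟨J.range, le_rfl, ⟨isField_range J, Set.countable_range J⟩, ?_⟩
    by_cases h1 : p = 1
    · refine Or.inr (Or.inr (Or.inr (Or.inr (Or.inr (Or.inr (Or.inl ?_))))))
      show p.map J = 1
      rw [h1, Polynomial.map_one]
    · have h2 := mt (Polynomial.Monic.irreducible_iff_natDegree hmon).2 hirr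
      push Not at h2
      obtain ⟨g, h, hg, hh, hgh, hd⟩ := h2 h1
      refine Or.inl ⟨g.map J, h.map J, hin0 g, hin0 h, hg.map J, hh.map J, ?_, ?_, ?_⟩
      · rw [← Polynomial.map_mul, hgh]
      · rw [hg.natDegree_map]
        exact Nat.pos_of_ne_zero hd.1
      · rw [hh.natDegree_map]
        exact Nat.pos_of_ne_zero hd.2
  by_cases hdvd : ∃ i, p ∣ c i
  · obtain ⟨i, h, hi⟩ := hdvd
    refine ⟨J.range, le_rfl, ⟨isField_range J, Set.countable_range J⟩, ?_⟩
    refine Or.inr (Or.inl ⟨i, h.map J, hin0 h, ?_⟩)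
    show (c i).map J = p.map J * h.map J
    rw [hi, Polynomial.map_mul]
  push Not at hdvd
  by_cases hn : n < 3
  · refine ⟨J.range, le_rfl, ⟨isField_range J, Set.countable_range J⟩, ?_⟩
    exact Or.inr (Or.inr (Or.inr (Or.inr (Or.inr (Or.inl hn)))))
  let i₁ : E →+* M₁ := (RingHom.fst M₁ M₂).comp J
  let i₂ : E →+* M₂ := (RingHom.snd M₁ M₂).comp J
  have hp1 : ∀ f : E[X], (f.map J).map (RingHom.fst M₁ M₂) = f.map i₁ := fun f => map_map _ _ f
  have hp2 : ∀ f : E[X], (f.map J).map (RingHom.snd M₁ M₂) = f.map i₂ := fun f => map_map _ _ f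
  by_cases hL1 : LocIso (p.map i₁) (fun i => (c i).map i₁)
  swap
  · refine ⟨J.range, le_rfl, ⟨isField_range J, Set.countable_range J⟩, ?_⟩
    refine Or.inr (Or.inr (Or.inl ?_))
    simp only [hp1]
    exact hL1
  by_cases hL2 : LocIso (p.map i₂) (fun i => (c i).map i₂)
  swap
  · refine ⟨J.range, le_rfl, ⟨isField_range J, Set.countable_range J⟩, ?_⟩
    refine Or.inr (Or.inr (Or.inr (Or.inl ?_)))
    simp only [hp2]
    exact hL2
  obtain ⟨E', _, k₁, k₂, i, hcE', hk1, hk2, y, hy, hspan⟩ := hG M₁ M₂ hM₁ hM₂ E inferInstance i₁ i₂ p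
    hmon hirr n (by omega) c hdvd hL1 hL2
  let J' : E' →+* M₁ × M₂ := k₁.prod k₂
  have hJ' : J'.comp i = J := by
    ext x
    · exact congrArg (fun f => f x) hk1
    · exact congrArg (fun f => f x) hk2
  have hJf : ∀ f : E[X], (f.map i).map J' = f.map J := by
    intro f
    rw [map_map, hJ']
  have hin : ∀ f : E'[X], CoefIn J'.range (f.map J') := coefIn_map J' J'.range fun b => ⟨b, rfl⟩
  refine ⟨J'.range, ?_, ⟨isField_range J', Set.countable_range J'⟩, ?_⟩
  · rintro _ ⟨x, rfl⟩
    exact ⟨i x, by rw [← hJ']; rfl⟩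
  · refine Or.inr (Or.inr (Or.inr (Or.inr (Or.inr (Or.inr (Or.inr ?_))))))
    obtain ⟨h, hh⟩ := hy
    have h1 : (1 : E'[X]) ∈ Ideal.span (insert (p.map i) (Set.range y)) := by
      rw [hspan]; trivial
    rw [Ideal.mem_span_insert] at h1
    obtain ⟨u, z, hz, hu⟩ := h1
    rw [Ideal.mem_span_range_iff_exists_fun] at hz
    obtain ⟨v, hv⟩ := hz
    refine ⟨fun i => (y i).map J', fun i => (v i).map J', h.map J', u.map J', fun i => hin _,
      fun i => hin _, hin _, hin _, ?_, ?_⟩
    · show ∑ l, (c l).map J * (y l).map J' ^ 2 = p.map J * h.map J'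
      rw [← hJf p, ← Polynomial.map_mul, ← hh, Polynomial.map_sum]
      refine Finset.sum_congr rfl fun l _ => ?_
      rw [Polynomial.map_mul, Polynomial.map_pow, hJf]
    · show u.map J' * p.map J + ∑ l, (v l).map J' * (y l).map J' = 1
      rw [← hJf p, ← Polynomial.map_mul]
      have : ∑ l, (v l).map J' * (y l).map J' = z.map J' := by
        rw [← hv, Polynomial.map_sum]
        refine Finset.sum_congr rfl fun l _ => ?_
        rw [Polynomial.map_mul]
      rw [this, ← Polynomial.map_add, ← hu, Polynomial.map_one]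

end

theorem lg_thm (hG : S_LGSTEP) (hC : S_CL) : S_LG := by
  classical
  intro M₁ M₂ _ _ _ _ hM₁ hM₂ E _ hE i₁ i₂
  let J₀ : E →+* M₁ × M₂ := i₁.prod i₂
  let T := (n : ℕ) × ((M₁ × M₂)[X] × (Fin n → (M₁ × M₂)[X]))
  let coef : T → Set (M₁ × M₂) := fun t =>
    (t.2.1.coeffs : Set (M₁ × M₂)) ∪ ⋃ i, ((t.2.2 i).coeffs : Set (M₁ × M₂))
  have hcoef : ∀ (t : T) (S : Subring (M₁ × M₂)), coef t ⊆ S → CoefIn S t.2.1 ∧
      ∀ i, CoefIn S (t.2.2 i) := by
    intro t S h
    have aux : ∀ f : (M₁ × M₂)[X], (f.coeffs : Set (M₁ × M₂)) ⊆ S → CoefIn S f := by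
      intro f hf k
      by_cases hk : f.coeff k = 0
      · rw [hk]; exact S.zero_mem
      · exact hf (Polynomial.coeff_mem_coeffs hk)
    exact ⟨aux _ (Set.subset_union_left.trans h), fun i => aux _
      ((Set.subset_iUnion (fun i => ((t.2.2 i).coeffs : Set (M₁ × M₂))) i).trans
        (Set.subset_union_right.trans h))⟩
  obtain ⟨S, hS0, hSmono, hSP, hSsol⟩ := hC (M₁ × M₂) (fun S => IsField S ∧ Countable S) T coef
    (fun t S => SolT t S)
    (fun t => (Finset.finite_toSet _).union (Set.finite_iUnion fun i => Finset.finite_toSet _))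
    (fun t S S' h hs => SolT.mono t S S' h hs)
    (by
      intro S hS
      haveI := hS.2
      -- injection into polynomials over `S`
      let f : {t : T // coef t ⊆ (S : Set (M₁ × M₂))} → (n : ℕ) × (S[X] × (Fin n → S[X])) :=
        fun t => ⟨t.1.1, ((hcoef t.1 S t.2).1.exists_lift.choose,
          fun i => ((hcoef t.1 S t.2).2 i).exists_lift.choose)⟩
      let g : (n : ℕ) × (S[X] × (Fin n → S[X])) → T := fun t =>
        ⟨t.1, (t.2.1.map S.subtype, fun i => (t.2.2 i).map S.subtype)⟩
      have hgf : ∀ t, g (f t) = t.1 := by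
        intro t
        have e1 := (hcoef t.1 S t.2).1.exists_lift.choose_spec
        have e2 := fun i => ((hcoef t.1 S t.2).2 i).exists_lift.choose_spec
        exact Sigma.ext rfl (heq_of_eq (Prod.ext e1 (funext e2)))
      have hinj : Function.Injective f := by
        intro t t' h
        apply Subtype.ext
        rw [← hgf t, ← hgf t', h]
      haveI : Countable S[X] := by
        haveI : Countable (ℕ →₀ S) := inferInstance
        have hinj : Function.Injective (fun f : S[X] =>
            (Finsupp.onFinset f.support f.coeff (fun a ha => mem_support_iff.2 ha) : ℕ →₀ S)) := by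
          intro f g h
          ext1 k
          exact DFunLike.congr_fun h k
        exact hinj.countable
      exact hinj.countable)
    (by
      intro S t hS hcS
      -- an abstract field isomorphic to `S`
      have hex : ∃ (E₁ : Type) (_ : Field E₁), Nonempty (E₁ ≃+* S) :=
        ⟨S, hS.1.toField, ⟨RingEquiv.refl _⟩⟩
      obtain ⟨E₁, _, ⟨e⟩⟩ := hex
      haveI : Countable S := hS.2
      haveI : Countable E₁ := e.injective.countable
      let J : E₁ →+* M₁ × M₂ := S.subtype.comp (e : E₁ →+* S)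
      have hJr : J.range = S := by
        ext x
        constructor
        · rintro ⟨y, rfl⟩
          exact (e y).2
        · intro hx
          exact ⟨e.symm ⟨x, hx⟩, by simp [J]⟩
      have hlift : ∀ f : (M₁ × M₂)[X], CoefIn S f → ∃ g : E₁[X], g.map J = f := by
        intro f hf
        obtain ⟨g, hg⟩ := hf.exists_lift
        refine ⟨g.map (e.symm : S →+* E₁), ?_⟩
        rw [map_map]
        have : J.comp (e.symm : S →+* E₁) = S.subtype := by
          ext x <;> simp [J]
        rw [this, hg]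
      obtain ⟨p, hp⟩ := hlift _ (hcoef t S hcS).1
      choose c hc using fun i => hlift _ ((hcoef t S hcS).2 i)
      obtain ⟨S', h1, h2, h3⟩ := step_field hG hM₁ hM₂ E₁ J p t.1 c
      refine ⟨S', ?_, h2, ?_⟩
      · rw [← hJr]; exact h1
      · have : (⟨t.1, (p.map J, fun i => (c i).map J)⟩ : T) = t :=
          Sigma.ext rfl (heq_of_eq (Prod.ext hp (funext hc)))
        rw [← this]
        exact h3)
    J₀.range ⟨isField_range J₀, Set.countable_range J₀⟩
  -- the union
  let R : Subring (M₁ × M₂) := ⨆ n, S n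
  have hdir : Directed (· ≤ ·) S := hSmono.directed_le
  have hmem : ∀ x, x ∈ R ↔ ∃ n, x ∈ S n := fun x => Subring.mem_iSup_of_directed hdir
  have hRf : IsField R := by
    refine ⟨⟨0, 1, ?_⟩, fun x y => mul_comm x y, ?_⟩
    · intro h
      have := congrArg Subtype.val h
      exact zero_ne_one this
    · intro x hx
      obtain ⟨n, hn⟩ := (hmem x.1).1 x.2
      have hx' : (⟨x.1, hn⟩ : S n) ≠ 0 := by
        intro h
        apply hx
        apply Subtype.ext
        have h' : (x : M₁ × M₂) = 0 := congrArg (fun z : S n => (z : M₁ × M₂)) h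
        exact h'
      obtain ⟨b, hb⟩ := (hSP n).1.mul_inv_cancel hx'
      refine ⟨⟨b.1, (hmem _).2 ⟨n, b.2⟩⟩, ?_⟩
      apply Subtype.ext
      have hb' : (x : M₁ × M₂) * b = 1 := congrArg (fun z : S n => (z : M₁ × M₂)) hb
      exact hb'
  have hRc : Countable R := by
    have : (R : Set (M₁ × M₂)) = ⋃ n, (S n : Set (M₁ × M₂)) := by
      ext x
      simp only [Set.mem_iUnion, SetLike.mem_coe]
      exact hmem x
    have h2 : (R : Set (M₁ × M₂)).Countable := by
      rw [this]
      refine Set.countable_iUnion fun n => ?_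
      haveI := (hSP n).2
      exact Set.to_countable _
    exact h2.to_subtype
  have hex : ∃ (F : Type) (_ : Field F), Nonempty (F ≃+* R) :=
    ⟨R, hRf.toField, ⟨RingEquiv.refl _⟩⟩
  obtain ⟨F, _, ⟨e⟩⟩ := hex
  let J : F →+* M₁ × M₂ := R.subtype.comp (e : F →+* R)
  have hJinj : Function.Injective J := J.injective
  have hE0 : ∀ x : E, J₀ x ∈ R := by
    intro x
    refine (hmem _).2 ⟨0, ?_⟩
    rw [hS0]
    exact ⟨x, rfl⟩
  let i : E →+* F := (e.symm : R →+* F).comp (J₀.codRestrict R hE0)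
  have hi : J.comp i = J₀ := by
    ext x <;> simp [J, i]
  refine ⟨F, inferInstance, i, (RingHom.fst M₁ M₂).comp J, (RingHom.snd M₁ M₂).comp J,
    e.injective.countable, ?_, ?_, ?_⟩
  · rw [RingHom.comp_assoc, hi]; rfl
  · rw [RingHom.comp_assoc, hi]; rfl
  · intro p hpm hpirr n hn c hndvd hL1 hL2
    have hlift : ∀ f : (M₁ × M₂)[X], CoefIn R f → ∃ g : F[X], g.map J = f := by
      intro f hf
      obtain ⟨g, hg⟩ := hf.exists_lift
      refine ⟨g.map (e.symm : R →+* F), ?_⟩
      rw [map_map]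
      have : J.comp (e.symm : R →+* F) = R.subtype := by
        ext x <;> simp [J]
      rw [this, hg]
    have hJR : ∀ x, J x ∈ R := fun x => (e x).2
    let t : T := ⟨n, (p.map J, fun i => (c i).map J)⟩
    obtain ⟨m, hm⟩ := hSsol t (by
      intro a ha
      apply (hmem a).1
      rcases ha with ha | ha
      · obtain ⟨k, _, hk⟩ := Polynomial.mem_coeffs_iff.1 ha
        rw [hk]
        exact coefIn_map J R hJR p k
      · obtain ⟨l, hl⟩ := Set.mem_iUnion.1 ha
        obtain ⟨k, _, hk⟩ := Polynomial.mem_coeffs_iff.1 hl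
        rw [hk]
        exact coefIn_map J R hJR (c l) k)
    have hle : S m ≤ R := le_iSup S m
    have hinjm : Function.Injective (Polynomial.map J) := Polynomial.map_injective J hJinj
    rcases hm with ⟨g, k, hg, hk, hgm, hkm, h1, hgd, hkd⟩ | ⟨l, k, hk, h1⟩ | h1 | h1 | h1 | h1 |
      h1 | ⟨y, v, k, u, hy, hv, hk, hu, h1, h2⟩
    · exfalso
      obtain ⟨g', rfl⟩ := hlift g (hg.mono hle)
      obtain ⟨k', rfl⟩ := hlift k (hk.mono hle)
      have h3 : g' * k' = p := by
        apply hinjm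
        rw [Polynomial.map_mul]
        exact h1
      rcases hpirr.isUnit_or_isUnit h3.symm with h | h
      · rw [natDegree_map_eq_of_injective hJinj, natDegree_eq_zero_of_isUnit h] at hgd
        exact absurd hgd (lt_irrefl 0)
      · rw [natDegree_map_eq_of_injective hJinj, natDegree_eq_zero_of_isUnit h] at hkd
        exact absurd hkd (lt_irrefl 0)
    · exfalso
      obtain ⟨k', rfl⟩ := hlift k (hk.mono hle)
      apply hndvd l
      refine ⟨k', ?_⟩
      apply hinjm
      rw [Polynomial.map_mul]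
      exact h1
    · exfalso
      apply h1
      have hmm : ∀ f : F[X], (f.map J).map (RingHom.fst M₁ M₂) =
          f.map ((RingHom.fst M₁ M₂).comp J) := fun f => map_map _ _ f
      show LocIso ((p.map J).map (RingHom.fst M₁ M₂)) (fun i => ((c i).map J).map (RingHom.fst M₁ M₂))
      simp only [hmm]
      exact hL1
    · exfalso
      apply h1
      have hmm : ∀ f : F[X], (f.map J).map (RingHom.snd M₁ M₂) =
          f.map ((RingHom.snd M₁ M₂).comp J) := fun f => map_map _ _ f
      show LocIso ((p.map J).map (RingHom.snd M₁ M₂)) (fun i => ((c i).map J).map (RingHom.snd M₁ M₂))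
      simp only [hmm]
      exact hL2
    · exact absurd (hpm.map J) h1
    · exact absurd (show n < 3 from h1) (by omega)
    · exfalso
      have : p = 1 := by
        apply hinjm
        rw [Polynomial.map_one]
        exact h1
      exact hpirr.ne_one this
    · choose y' hy' using fun l => hlift (y l) ((hy l).mono hle)
      choose v' hv' using fun l => hlift (v l) ((hv l).mono hle)
      obtain ⟨k', rfl⟩ := hlift k (hk.mono hle)
      obtain ⟨u', rfl⟩ := hlift u (hu.mono hle)
      refine ⟨y', ⟨k', ?_⟩, ?_⟩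
      · apply hinjm
        rw [Polynomial.map_mul, Polynomial.map_sum]
        refine Eq.trans (Finset.sum_congr rfl fun l _ => ?_) h1
        rw [Polynomial.map_mul, Polynomial.map_pow, hy']
      · by_contra hcon
        push Not at hcon
        apply hpirr.not_isUnit
        rw [isUnit_iff_dvd_one]
        have h3 : u' * p + ∑ l, v' l * y' l = 1 := by
          apply hinjm
          rw [Polynomial.map_add, Polynomial.map_mul, Polynomial.map_sum, Polynomial.map_one, ← h2]
          congr 1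
          refine Finset.sum_congr rfl fun l _ => ?_
          rw [Polynomial.map_mul, hv', hy']
        rw [← h3]
        exact dvd_add (dvd_mul_left _ _) (Finset.dvd_sum fun l _ => (hcon l).mul_left _)

end Pool.Agent.Helper92.W4
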