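import Pool.Agent.Helper40.W4.Spec

/-! Part LGT of the blueprint W4 (MP_2fcb4d_al): the local-global principle and torsion in `I³`. -/

set_option autoImplicit false
set_option linter.style.haveILetI false

namespace Pool.Agent.Helper92.W4

open Pool.Agent.Helper40.W4 Polynomial Module

section

lemma Wmap_mem_pow {K L : Type} [Field K] [Field L] (j : K →+* L) (n : ℕ) {ξ : W K}
    (hξ : ξ ∈ (fI K) ^ n) : Wmap j ξ ∈ (fI L) ^ n := by
  have h1 : (fI K).map (Wmap j) ≤ fI L := by
    rw [Ideal.map_le_iff_le_comap, fI, Ideal.span_le]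
    rintro _ ⟨a, rfl⟩
    simp only [Ideal.coe_comap, Set.mem_preimage, SetLike.mem_coe, map_sub, map_one, Wmap_br]
    exact Ideal.subset_span ⟨_, rfl⟩
  have h2 : Wmap j ξ ∈ ((fI K) ^ n).map (Wmap j) := Ideal.mem_map_of_mem _ hξ
  rw [Ideal.map_pow] at h2
  exact Ideal.pow_right_mono h1 n h2

variable {F M : Type} [Field F] [Field M] [CharZero M] (j : F →+* M)

/-- One irreducible factor. -/
lemma factor_step (hS : S_SOUND)
    (hM : ∀ (N : Type) [Field N] [Algebra M N] [FiniteDimensional M N], TorsZero 3 N)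
    {L : Type} [Field L] [Algebra F L] (pb : PowerBasis F L) {ξ : W L} (hξ : ξ ∈ (fI L) ^ 3)
    {T : ℕ} (hT : 0 < T) (hTξ : (T : W L) * ξ = 0) {n : ℕ} (hn : 0 < n) (a : Fin n → Lˣ)
    (ha : ξ = cl a) (c : Fin n → F[X]) (hc : ∀ i, aeval pb.gen (c i) = a i)
    (r : M[X]) (hr : Irreducible r) (hrP : r ∣ (minpoly F pb.gen).map j) :
    ∃ Y : Fin n → M[X], r ∣ ∑ i, (c i).map j * Y i ^ 2 ∧ ∃ i, ¬ r ∣ Y i := by
  haveI : Fact (Irreducible r) := ⟨hr⟩
  haveI : FiniteDimensional M (AdjoinRoot r) := (AdjoinRoot.powerBasis hr.ne_zero).finite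
  haveI : CharZero (AdjoinRoot r) :=
    charZero_of_injective_algebraMap (algebraMap M (AdjoinRoot r)).injective
  letI algFN : Algebra F (AdjoinRoot r) := ((AdjoinRoot.of r).comp j).toAlgebra
  have haev : ∀ f : F[X], aeval (AdjoinRoot.root r) f = AdjoinRoot.mk r (f.map j) := by
    intro f
    rw [aeval_def]
    show eval₂ ((AdjoinRoot.of r).comp j) (AdjoinRoot.root r) f = _
    rw [← eval₂_map, ← AdjoinRoot.aeval_eq, aeval_def]
    rfl
  have hroot : aeval (AdjoinRoot.root r) (minpoly F pb.gen) = 0 := by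
    rw [haev, AdjoinRoot.mk_eq_zero]
    exact hrP
  let φ : L →ₐ[F] AdjoinRoot r := pb.lift (AdjoinRoot.root r) hroot
  have hφ : ∀ i, φ (a i) = AdjoinRoot.mk r ((c i).map j) := by
    intro i
    rw [← hc i, pb.lift_aeval, haev]
  have hmem : Wmap (φ : L →+* AdjoinRoot r) ξ ∈ (fI (AdjoinRoot r)) ^ 3 := Wmap_mem_pow _ 3 hξ
  have htor : (T : W (AdjoinRoot r)) * Wmap (φ : L →+* AdjoinRoot r) ξ = 0 := by
    have := congrArg (Wmap (φ : L →+* AdjoinRoot r)) hTξ
    rwa [map_mul, map_natCast, map_zero] at this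
  have h0 := hM (AdjoinRoot r) _ hmem T hT htor
  rw [ha, Wmap_cl] at h0
  obtain ⟨y, hy0, hy⟩ := (hS (AdjoinRoot r)).2 n _ hn h0
  choose Y hY using fun i => AdjoinRoot.mk_surjective (g := r) (y i)
  refine ⟨Y, ?_, ?_⟩
  · rw [← AdjoinRoot.mk_eq_zero, map_sum, ← hy]
    refine Finset.sum_congr rfl fun i _ => ?_
    rw [map_mul, map_pow, hY, ← hφ]
    rfl
  · by_contra hcon
    push Not at hcon
    apply hy0
    funext i
    rw [← hY i]
    exact AdjoinRoot.mk_eq_zero.2 (hcon i)

/-- Chinese remainder. -/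
lemma crt_step {n : ℕ} (c : Fin n → M[X]) (P : M[X])
    (h : ∀ r : M[X], Irreducible r → r ∣ P → ∃ Y : Fin n → M[X], r ∣ ∑ i, c i * Y i ^ 2 ∧
      ∃ i, ¬ r ∣ Y i) (Q : M[X]) : Squarefree Q → Q ∣ P →
    ∃ y : Fin n → M[X], Q ∣ ∑ i, c i * y i ^ 2 ∧
      ∀ r : M[X], Irreducible r → r ∣ Q → ∃ i, ¬ r ∣ y i := by
  induction Q using UniqueFactorizationMonoid.induction_on_prime with
  | h₁ => intro h0; exact absurd h0 not_squarefree_zero
  | h₂ x hx =>
    intro _ _
    refine ⟨fun _ => 1, hx.dvd, fun r hr hrx => ?_⟩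
    exact absurd (isUnit_of_dvd_unit hrx hx) hr.not_isUnit
  | h₃ a p ha hp ih =>
    intro hsq hdvd
    obtain ⟨y', hy', hy'r⟩ := ih (hsq.of_mul_right) ((dvd_mul_left a p).trans hdvd)
    obtain ⟨Y, hY, hYi⟩ := h p hp.irreducible ((dvd_mul_right p a).trans hdvd)
    have hcop : IsCoprime p a := by
      refine (hp.irreducible.coprime_iff_not_dvd).2 fun hpa => ?_
      obtain ⟨b, rfl⟩ := hpa
      exact hp.not_isUnit (hsq p ⟨b, by ring⟩)
    obtain ⟨u, v, huv⟩ := hcop
    -- `u * p + v * a = 1`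
    refine ⟨fun i => y' i * (u * p) + Y i * (v * a), ?_, ?_⟩
    · refine IsCoprime.mul_dvd ⟨u, v, huv⟩ ?_ ?_
      · obtain ⟨w, hw⟩ := hY
        have e : ∑ i, c i * (y' i * (u * p) + Y i * (v * a)) ^ 2 =
            (∑ i, c i * Y i ^ 2) * (v * a) ^ 2 +
              p * ∑ i, c i * (2 * (y' i * u) * (Y i * (v * a)) + (y' i * u) ^ 2 * p) := by
          rw [Finset.mul_sum, Finset.sum_mul, ← Finset.sum_add_distrib]
          exact Finset.sum_congr rfl fun i _ => by ring
        rw [e, hw]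
        exact dvd_add ⟨w * (v * a) ^ 2, by ring⟩ (dvd_mul_right _ _)
      · obtain ⟨w, hw⟩ := hy'
        have e : ∑ i, c i * (y' i * (u * p) + Y i * (v * a)) ^ 2 =
            (∑ i, c i * y' i ^ 2) * (u * p) ^ 2 +
              a * ∑ i, c i * (2 * (y' i * (u * p)) * (Y i * v) + (Y i * v) ^ 2 * a) := by
          rw [Finset.mul_sum, Finset.sum_mul, ← Finset.sum_add_distrib]
          exact Finset.sum_congr rfl fun i _ => by ring
        rw [e, hw]
        exact dvd_add ⟨w * (u * p) ^ 2, by ring⟩ (dvd_mul_right _ _)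
    · intro r hr hrpa
      rcases hr.prime.dvd_or_dvd hrpa with hrp | hra
      · obtain ⟨i, hi⟩ := hYi
        refine ⟨i, fun hcon => hi ?_⟩
        have hpr : p ∣ r := (hr.associated_of_dvd hp.irreducible hrp).symm.dvd
        have h2 : r ∣ Y i * (v * a) := by
          have : Y i * (v * a) = (y' i * (u * p) + Y i * (v * a)) - y' i * u * p := by ring
          rw [this]
          exact dvd_sub hcon (hrp.mul_left _)
        have h3 : Y i = Y i * (v * a) + Y i * u * p := by
          calc Y i = Y i * (u * p + v * a) := by rw [huv, mul_one]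
            _ = _ := by ring
        rw [h3]
        exact hpr.trans (dvd_add h2 (hrp.mul_left _))
      · obtain ⟨i, hi⟩ := hy'r r hr hra
        refine ⟨i, fun hcon => hi ?_⟩
        have h2 : r ∣ y' i * (u * p) := by
          have : y' i * (u * p) = (y' i * (u * p) + Y i * (v * a)) - Y i * v * a := by ring
          rw [this]
          exact dvd_sub hcon (hra.mul_left _)
        have h3 : y' i = y' i * (u * p) + y' i * v * a := by
          calc y' i = y' i * (u * p + v * a) := by rw [huv, mul_one]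
            _ = _ := by ring
        rw [h3]
        exact dvd_add h2 (hra.mul_left _)

lemma locIso_of_crt {n : ℕ} (c : Fin n → M[X]) (P : M[X]) (hP : Squarefree P)
    (h : ∀ r : M[X], Irreducible r → r ∣ P → ∃ Y : Fin n → M[X], r ∣ ∑ i, c i * Y i ^ 2 ∧
      ∃ i, ¬ r ∣ Y i) : LocIso P c := by
  obtain ⟨y, hy, hyr⟩ := crt_step c P h P hP dvd_rfl
  refine ⟨y, hy, ?_⟩
  by_contra hne
  obtain ⟨g, hg⟩ := (IsPrincipalIdealRing.principal (Ideal.span (insert P (Set.range y)))).principal
  rw [Ideal.submodule_span_eq] at hg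
  have hgu : ¬ IsUnit g := by
    intro hu
    apply hne
    rw [hg]
    exact Ideal.span_singleton_eq_top.2 hu
  have hgP : g ∣ P := by
    rw [← Ideal.mem_span_singleton, ← hg]
    exact Ideal.subset_span (Set.mem_insert _ _)
  have hgy : ∀ i, g ∣ y i := by
    intro i
    rw [← Ideal.mem_span_singleton, ← hg]
    exact Ideal.subset_span (Set.mem_insert_of_mem _ ⟨i, rfl⟩)
  have hg0 : g ≠ 0 := by
    rintro rfl
    exact hP.ne_zero (zero_dvd_iff.1 hgP)
  obtain ⟨r, hr, hrg⟩ := WfDvdMonoid.exists_irreducible_factor hgu hg0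
  obtain ⟨i, hi⟩ := hyr r hr (hrg.trans hgP)
  exact hi (hrg.trans (hgy i))

end

theorem lgt_thm (hW : S_WVAL) (hS : S_SOUND) (hD : S_DISC) : S_LGT := by
  classical
  intro F M₁ M₂ _ _ _ _ _ j₁ j₂ hLG h1 h2 L _ _ _ ξ hξ T hT hTξ
  haveI : CharZero F := j₁.charZero
  haveI : CharZero L := charZero_of_injective_algebraMap (algebraMap F L).injective
  by_contra hξ0
  -- a representation of minimal length
  have hex : ∃ n : ℕ, ∃ a : Fin n → Lˣ, ξ = cl a := (hW L).1 ξ
  obtain ⟨a, ha⟩ := Nat.find_spec hex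
  have hmin : ∀ m, m < Nat.find hex → ¬ ∃ a : Fin m → Lˣ, ξ = cl a := fun m hm =>
    Nat.find_min hex hm
  generalize Nat.find hex = n at a ha hmin
  have hn0 : n ≠ 0 := by
    rintro rfl
    apply hξ0
    rw [ha]
    simp [cl]
  have hani : ¬ Isot (fun i => (a i : L)) := by
    intro hiso
    obtain ⟨m, b, hm, hb⟩ := (hW L).2.2 n a hiso
    exact hmin m (by omega) ⟨b, by rw [ha, hb]⟩
  have heven : Even n := by
    rw [← (hD L).1 n a, ← ha]
    exact Ideal.pow_le_self (by norm_num) hξ
  have hn3 : 3 ≤ n := by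
    rcases Nat.lt_or_ge 2 n with h | h
    · exact h
    exfalso
    have hn2 : n = 2 := by
      obtain ⟨m, hm⟩ := heven
      omega
    subst hn2
    have hs : IsSquare (-(a 0 * a 1)) := by
      apply (hD L).2
      have e : 1 - br (-(a 0 * a 1)) = br (a 0) * ξ := by
        rw [ha, br_neg, br_mul]
        unfold cl
        rw [Fin.sum_univ_two, mul_add, br_mul_self]
        ring
      rw [e]
      exact Ideal.mul_mem_left _ _ (Ideal.pow_le_pow_right (by norm_num) hξ)
    obtain ⟨t, ht⟩ := hs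
    apply hani
    refine ⟨![(t : L), (a 0 : L)], ?_, ?_⟩
    · intro h
      have := congrFun h 1
      simp at this
    · rw [Fin.sum_univ_two]
      have ht' : (t : L) * t = -((a 0 : L) * a 1) := by
        have := congrArg (Units.val) ht
        simpa using this.symm
      simp only [Matrix.cons_val_zero, Matrix.cons_val_one]
      linear_combination (a 0 : L) * ht'
  -- a primitive element
  let pb : PowerBasis F L := Field.powerBasisOfFiniteOfSeparable F L
  have hint : IsIntegral F pb.gen := Algebra.IsIntegral.isIntegral _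
  have hirr : Irreducible (minpoly F pb.gen) := minpoly.irreducible hint
  have hc : ∀ i, ∃ f : F[X], aeval pb.gen f = (a i : L) := by
    intro i
    obtain ⟨f, hf⟩ := pb.exists_eq_aeval' (a i : L)
    exact ⟨f, hf.symm⟩
  choose c hc using hc
  have hndvd : ∀ i, ¬ minpoly F pb.gen ∣ c i := by
    intro i hd
    have := (minpoly.dvd_iff.1 hd)
    rw [hc i] at this
    exact (a i).ne_zero this
  have key : ∀ (M : Type) [Field M] [CharZero M] (j : F →+* M),
      (∀ (N : Type) [Field N] [Algebra M N] [FiniteDimensional M N], TorsZero 3 N) →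
      LocIso ((minpoly F pb.gen).map j) (fun i => (c i).map j) := by
    intro M _ _ j hM
    refine locIso_of_crt _ _ ?_ ?_
    · exact (hirr.separable.map (f := j)).squarefree
    · intro r hr hrP
      exact factor_step j hS hM pb hξ hT hTξ (Nat.pos_of_ne_zero hn0) a ha c hc r hr hrP
  obtain ⟨y, hy, i, hi⟩ := hLG (minpoly F pb.gen) (minpoly.monic hint) hirr n hn3 c hndvd
    (key M₁ j₁ h1) (key M₂ j₂ h2)
  apply hani
  refine ⟨fun i => aeval pb.gen (y i), ?_, ?_⟩
  · intro h
    apply hi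
    rw [minpoly.dvd_iff]
    exact congrFun h i
  · have := minpoly.dvd_iff.1 hy
    rw [map_sum] at this
    rw [← this]
    refine Finset.sum_congr rfl fun i _ => ?_
    rw [map_mul, map_pow, hc i]

end Pool.Agent.Helper92.W4
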